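import Pool.Agent.H68.QC.Targets
import Pool.Agent.H42.OQ.NST

/-!
# MKX: the truth table of a table
-/

set_option autoImplicit false

namespace Pool.Agent.H18.QC

open Finset Pool.Agent.H6.NB Pool.Agent.H70.OQ Pool.Agent.H70.RK Pool.Agent.H68.QC

theorem pf_MKX : T_MKX := by
  intro n l T
  obtain ⟨h1, h2, h3⟩ := Pool.Agent.H42.OQ.NST.nst n l
  have hex : ∀ v : Fin (nod n l) → Bool, ∃ p : Nn n l, nstr n l p = List.ofFn v := by
    intro v
    exact h3 (List.ofFn v) (by rw [List.length_ofFn]; rfl)
  have key : ∀ (T : Nn n l → Bool) (v : Fin (nod n l) → Bool),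
      mkX n l (nod n l) T v = T (hex v).choose := by
    intro T v
    unfold mkX
    exact dif_pos (hex v)
  refine ⟨fun p => ?_, fun v => (hex v).choose, key⟩
  have hlen : (nstr n l p).length = nod n l := h1 p
  have e1 : orc (nod n l) (mkX n l (nod n l) T) (false :: nstr n l p) =
      mkX n l (nod n l) T (fun i => (nstr n l p).getD i false) := by
    show (if (nstr n l p).length = nod n l then
      mkX n l (nod n l) T (fun i => (nstr n l p).getD i false) else false) = _
    rw [if_pos hlen]
  rw [e1, key]
  congr 1
  apply h2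
  rw [(hex _).choose_spec]
  apply List.ext_getElem
  · rw [List.length_ofFn, hlen]
  · intro i hi hi'
    rw [List.getElem_ofFn, List.getD_eq_getElem _ _ hi']

end Pool.Agent.H18.QC
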